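import Pool.Agent.P8H39.TI.Stm5
import Pool.Agent.P8H59.TI.Lvl

/-!
# Project TI (helper39), part LVL5 (helper93), a copy of LVL3 by helper86, on top of LVL by helper59
-/

set_option autoImplicit false
set_option linter.all false

namespace Pool.Agent.P8H93.TI

open Finset
open Pool.Agent.P8H39.TI Pool.Agent.P8H59.TI

/-- **LVL5** -/
theorem t_LVL5 (hHB : S_HB2) (hP : S_POL) (hN : S_NUM5) (hPS : S_PS) : S_LVL5 := by
  classical
  intro n k t F T h1 h23 h3 h4 h5
  have h2 : t + 2 ≤ k := by omega
  have hle := card_le hPS F T h1 (by omega) h3 h4 h5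
  refine ⟨by exact_mod_cast hle, ?_⟩
  obtain ⟨x, hx, -⟩ := exists_dat hHB hP h1 h2 h3 h4
  have hS : TInt k t (star k T) := by
    constructor
    · intro A hA
      unfold Pool.Agent.P8H39.TI.star at hA
      rw [Finset.mem_filter, Finset.mem_powersetCard] at hA
      exact hA.1.2
    · intro A hA B hB
      unfold Pool.Agent.P8H39.TI.star at hA hB
      rw [Finset.mem_filter] at hA hB
      rw [← h5]
      exact Finset.card_le_card (Finset.subset_inter hA.2 hB.2)
  obtain ⟨z, hz, hz0⟩ := exists_dat hHB hP h1 h2 h3 hS
  have hz0 := hz0 ⟨fun X => if X = T then 1 else 0, by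
    intro A hA
    unfold ind dn
    rw [Finset.sum_ite_eq' _ _ _]
    have : A ∈ star k T ↔ T ∈ powersetCard t A := by
      unfold Pool.Agent.P8H39.TI.star
      rw [Finset.mem_filter]
      constructor
      · intro h
        rw [Finset.mem_powersetCard]
        exact ⟨h.2, h5⟩
      · intro h
        rw [Finset.mem_powersetCard] at h
        exact ⟨hA, h.1⟩
    by_cases h : A ∈ star k T
    · rw [if_pos h, if_pos (this.mp h)]
    · rw [if_neg h, if_neg (fun h' => h (this.mpr h'))]⟩
  refine ⟨x, z, hx.nn, ?_, fun r hr b => hx.lam r hr b, fun r hr b => hz.lam r hr b, hz0⟩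
  have hD : (0 : ℝ) < ((star k T).card : ℝ) := by exact_mod_cast star_pos T h5 (by omega) h3
  have hx0 := hx.zero
  have hzz := hz.zero
  -- facts for the sums over the levels above `t`
  have zsum : ∀ g : ℕ → ℝ, ∑ j ∈ range (k + 1), (if t < j then g j * z j else 0) = 0 := by
    intro g
    refine Finset.sum_eq_zero fun j hj => ?_
    rw [Finset.mem_range] at hj
    split_ifs with h
    · rw [hz0 j h (by omega), mul_zero]
    · rfl
  have xsum : x (t + 1) = ∑ j ∈ range (k + 1), (if t < j then (if j = t + 1 then 1 else 0) * x j else 0) := by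
    rw [Finset.sum_eq_single_of_mem (t + 1) (Finset.mem_range.2 (by omega)), if_pos (by omega), if_pos rfl, one_mul]
    intro j _ hj
    rw [if_neg hj, zero_mul, ite_self]
  -- the common part
  have main : ∀ i, 1 ≤ i → i ≤ t →
      (x 0 * ((star k T).card : ℝ) + z 0 * x (t + 1) ≤
        z 0 * ((star k T).card : ℝ)) ∧
      (x i * ((star k T).card : ℝ) + z i * x (t + 1) ≤
        z i * ((star k T).card : ℝ)) := by
    intro i hi1 hi
    obtain ⟨P, Q, p1, p2, p3, p4, p5, p6, p8, p7⟩ := hN n k t i h1 h23 h3 hi1 hi
    have b1 := sumP hx p1 hi1 hi (by omega) p4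
    have b2 := sumQ hx p2 p3
    have b3 := sumP hz p1 hi1 hi (by omega) p4
    have b4 := sumQ hz p2 p3
    rw [zsum (fun j => ev n k P j)] at b3
    rw [zsum (fun j => 1 + ev n k Q j)] at b4
    have c5 : (1 + ev n k Q 0) * ∑ j ∈ range (k + 1), (if t < j then ev n k P j * x j else 0) ≤
        ev n k P 0 * (2 * (∑ j ∈ range (k + 1), (if t < j then (1 + ev n k Q j) * x j else 0)) -
          ∑ j ∈ range (k + 1), (if t < j then (if j = t + 1 then 1 else 0) * x j else 0)) := by
      rw [Finset.mul_sum, Finset.mul_sum, ← Finset.sum_sub_distrib, Finset.mul_sum]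
      refine Finset.sum_le_sum fun j hj => ?_
      rw [Finset.mem_range] at hj
      by_cases h : t < j
      · have := mul_le_mul_of_nonneg_right (p7 j h (by omega)).2 (hx.nn j)
        simp only [if_pos h]
        generalize (if j = t + 1 then (1 : ℝ) else 0) = w at *
        linarith
      · simp only [if_neg h, mul_zero, sub_zero, le_refl]
    have c6 : ∑ j ∈ range (k + 1), (if t < j then (if j = t + 1 then 1 else 0) * x j else 0) ≤
        ∑ j ∈ range (k + 1), (if t < j then (1 + ev n k Q j) * x j else 0) := by
      refine Finset.sum_le_sum fun j hj => ?_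
      rw [Finset.mem_range] at hj
      split_ifs with h h'
      · subst h'
        exact mul_le_mul_of_nonneg_right (by linarith) (hx.nn _)
      · rw [zero_mul]
        exact mul_nonneg (by linarith [(p7 j h (by omega)).1]) (hx.nn j)
      · exact le_rfl
    rw [xsum]
    generalize (∑ j ∈ range (k + 1), (if t < j then ev n k P j * x j else 0)) = U at *
    generalize (∑ j ∈ range (k + 1), (if t < j then (1 + ev n k Q j) * x j else 0)) = V at *
    generalize (∑ j ∈ range (k + 1), (if t < j then (if j = t + 1 then 1 else 0) * x j else 0)) = X at *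
    generalize ev n k P 0 = p at *
    generalize ev n k Q 0 = q at *
    generalize x 0 = x0 at *
    generalize x i = xi at *
    generalize z 0 = z0 at *
    generalize z i = zi at *
    generalize (F.card : ℝ) = f at *
    generalize ((star k T).card : ℝ) = D at *
    generalize (n.choose k : ℝ) = C at *
    have hq : 0 < 1 + q := by linarith
    have e1 : zi = p * z0 := by linarith
    have e2 : D = (1 + q) * z0 := by linarith
    have hz0pos : 0 < z0 := by
      by_contra hcon
      push Not at hcon
      have : D ≤ 0 := by rw [e2]; exact mul_nonpos_of_nonneg_of_nonpos hq.le hcon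
      linarith
    have e3 : x0 * (1 + q) * D = f ^ 2 := by
      have : z0 * (x0 * (1 + q) * D) = z0 * f ^ 2 := by
        have e4 : x0 * D ^ 2 = f ^ 2 * z0 := by
          have : x0 * (z0 * C) = (x0 * C) * z0 := by ring
          rw [hzz, hx0] at this
          exact this
        have e5 : z0 * (x0 * (1 + q) * D) = x0 * D * ((1 + q) * z0) := by ring
        rw [e5, ← e2]
        linear_combination e4
      exact mul_left_cancel₀ hz0pos.ne' this
    have e6 : V * D = f * D - f ^ 2 := by
      have : V = f - (1 + q) * x0 := by linarith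
      rw [this]
      linear_combination -e3
    have e7 : 2 * f * D - f ^ 2 ≤ D ^ 2 := by nlinarith [sq_nonneg (f - D)]
    constructor
    · have h10 : (1 + q) * (x0 * D + z0 * X) ≤ (1 + q) * (z0 * D) := by
        have e8 : (1 + q) * (x0 * D + z0 * X) = f ^ 2 + X * D := by
          rw [e2] at e3 ⊢
          linear_combination e3
        have e9 : (1 + q) * (z0 * D) = D ^ 2 := by
          nth_rewrite 2 [e2] at *
          ring_nf
          rw [e2]; ring
        rw [e8, e9]
        have e10 := mul_le_mul_of_nonneg_right c6 hD.le
        nlinarith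
      exact le_of_mul_le_mul_left h10 hq
    · have h10 : (1 + q) * (xi * D + zi * X) ≤ (1 + q) * (zi * D) := by
        have h11 : (1 + q) * U ≤ p * (2 * V - X) := c5
        have h12 : xi = p * x0 + U := by linarith
        have h13 : (1 + q) * xi * D ≤ p * (D ^ 2 - X * D) := by
          have h14 := mul_le_mul_of_nonneg_right h11 hD.le
          have h15 : (1 + q) * xi * D = p * f ^ 2 + (1 + q) * U * D := by
            rw [h12]
            linear_combination p * e3
          have h16 : p * (2 * V - X) * D = p * (2 * f * D - 2 * f ^ 2 - X * D) := by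
            linear_combination 2 * p * e6
          have h17 := mul_le_mul_of_nonneg_left e7 p5
          rw [h15]
          rw [h16] at h14
          linarith
        have h18 : (1 + q) * zi = p * D := by rw [e1, e2]; ring
        have h19 : (1 + q) * (xi * D + zi * X) =
            (1 + q) * xi * D + X * ((1 + q) * zi) := by ring
        have h20 : (1 + q) * (zi * D) = (1 + q) * zi * D := by ring
        rw [h19, h20, h18]
        nlinarith
      exact le_of_mul_le_mul_left h10 hq
  intro i hi
  rcases Nat.eq_zero_or_pos i with rfl | hi1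
  · exact (main 1 le_rfl h1).1
  · exact (main i hi1 hi).2

end Pool.Agent.P8H93.TI

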